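import Mathlib
import Pool.Agent.H97.TA.V5.End
import Pool.Agent.H97.TA.Low

set_option autoImplicit false

/-!
# MP_6f77e1_co: binary 2-abelian squares of period at least 5 are avoidable
-/

namespace Pool.Agent.Results.MP_6f77e1_co.PeriodFive

open Pool.Agent.H97.TA

theorem result : Avoidable 5 ∧
    ∀ k₀ : ℕ, IsLeast {k : ℕ | 1 ≤ k ∧ Avoidable k} k₀ → 3 ≤ k₀ ∧ k₀ ≤ 5 := by
  have h : Avoidable 5 := Pool.Agent.H97.TA.V5.End.avoid
  exact ⟨h, fun k₀ hk => bounds (by norm_num) h k₀ hk⟩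

end Pool.Agent.Results.MP_6f77e1_co.PeriodFive
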